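import Pool.Agent.W79.MS.Defs

set_option autoImplicit false

namespace Pool.Agent.W346.MS
open Pool.Agent.W79.MS

theorem pow_le_pow_mul_choose (k : ℕ) : ∀ M : ℕ, k ≤ M → M ^ k ≤ k ^ k * M.choose k := by
  induction k with
  | zero => intro M _; simp
  | succ k ih =>
    intro M hM
    obtain ⟨N, rfl⟩ : ∃ N, M = N + 1 := ⟨M - 1, by omega⟩
    have hN : k ≤ N := by omega
    have h1 := ih N hN
    have h2 : (N + 1) * N.choose k = (N + 1).choose (k + 1) * (k + 1) :=
      Nat.add_one_mul_choose_eq N k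
    have h3 : (N + 1) ^ k ≤ (k + 1) ^ k * N.choose k := by
      rcases Nat.eq_zero_or_pos k with hk | hk
      · subst hk; simp
      · have h4 : (k * (N + 1)) ^ k ≤ ((k + 1) * N) ^ k := Nat.pow_le_pow_left (by nlinarith) k
        have h5 : k ^ k * (N + 1) ^ k ≤ k ^ k * ((k + 1) ^ k * N.choose k) := by
          calc k ^ k * (N + 1) ^ k = (k * (N + 1)) ^ k := (mul_pow _ _ _).symm
            _ ≤ ((k + 1) * N) ^ k := h4
            _ = (k + 1) ^ k * N ^ k := mul_pow _ _ _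
            _ ≤ (k + 1) ^ k * (k ^ k * N.choose k) := Nat.mul_le_mul_left _ h1
            _ = k ^ k * ((k + 1) ^ k * N.choose k) := by ring
        exact Nat.le_of_mul_le_mul_left h5 (Nat.pow_pos hk)
    calc (N + 1) ^ (k + 1) = (N + 1) ^ k * (N + 1) := pow_succ _ _
      _ ≤ ((k + 1) ^ k * N.choose k) * (N + 1) := Nat.mul_le_mul_right _ h3
      _ = (k + 1) ^ k * ((N + 1) * N.choose k) := by ring
      _ = (k + 1) ^ (k + 1) * (N + 1).choose (k + 1) := by rw [h2]; ring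

theorem main : S_NUM := by
  intro c D n hn hD M hM
  have hn2 : 2 * n ≤ M := by
    refine le_trans ?_ hM
    exact Nat.mul_le_mul_right _ (by omega)
  rcases Nat.eq_zero_or_pos c with hc | hc
  · subst hc
    rw [Nat.zero_pow (by omega)]
    simp only [mul_zero, zero_mul]
    exact Nat.choose_pos hn2
  · have h1 := pow_le_pow_mul_choose (2 * n) M hn2
    have h2 : ((D - 1) * n) ^ (2 * n) ≤ (2 * n) ^ (2 * n) * M.choose (2 * n) :=
      (Nat.pow_le_pow_left hM _).trans h1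
    have h3 : (n ^ (2 * n)) * ((D - 1) ^ 2) ^ n ≤ (n ^ (2 * n)) * (4 ^ n * M.choose (2 * n)) := by
      calc (n ^ (2 * n)) * ((D - 1) ^ 2) ^ n = ((D - 1) * n) ^ (2 * n) := by
            rw [mul_pow, ← pow_mul]; ring
        _ ≤ (2 * n) ^ (2 * n) * M.choose (2 * n) := h2
        _ = (n ^ (2 * n)) * (4 ^ n * M.choose (2 * n)) := by
            rw [mul_pow, pow_mul 2 2 n]; norm_num; ring
    have h4 : ((D - 1) ^ 2) ^ n ≤ 4 ^ n * M.choose (2 * n) :=
      Nat.le_of_mul_le_mul_left h3 (Nat.pow_pos hn)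
    have h5 : 64 * c * D ≤ (D - 1) ^ 2 := by
      obtain ⟨E, rfl⟩ : ∃ E, D = E + 1 := ⟨D - 1, by omega⟩
      rw [Nat.add_sub_cancel]
      have h6 : 64 * c + 2 ≤ E := by omega
      nlinarith
    have h6 : 4 ^ n * (16 * c * D) ^ n ≤ 4 ^ n * M.choose (2 * n) := by
      calc 4 ^ n * (16 * c * D) ^ n = (64 * c * D) ^ n := by
            rw [← mul_pow]; ring_nf
        _ ≤ ((D - 1) ^ 2) ^ n := Nat.pow_le_pow_left h5 n
        _ ≤ _ := h4
    have h7 : (16 * c * D) ^ n ≤ M.choose (2 * n) :=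
      Nat.le_of_mul_le_mul_left h6 (Nat.pow_pos (by norm_num))
    refine lt_of_lt_of_le ?_ h7
    have h8 : (16 * c * D) ^ n = 8 ^ n * c ^ n * (2 ^ n * D ^ n) := by
      rw [← mul_pow, ← mul_pow, ← mul_pow]; ring_nf
    rw [h8]
    have h9 : n < 2 ^ n := Nat.lt_two_pow_self
    have h10 : 0 < 8 ^ n * c ^ n := Nat.mul_pos (Nat.pow_pos (by norm_num)) (Nat.pow_pos hc)
    have h11 : 0 < D ^ n := Nat.pow_pos (by omega)
    exact Nat.mul_lt_mul_of_pos_left (Nat.mul_lt_mul_of_pos_right h9 h11) h10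

end Pool.Agent.W346.MS
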